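import Pool.Agent.Helper89.OC.St2
import Pool.Agent.Helper82.OS.M_MUK

/-!
# OC MODULE E3 (MP_2b6189_al)
-/

set_option autoImplicit false

namespace Pool.Agent.Helper9.OC

open Matrix ComplexConjugate Pool.Agent.Helper94.YF Pool.Agent.Helper94.YG Pool.Agent.Helper89.OS
open Pool.Agent.Helper89.OC

section
variable {I : Type} [Fintype I] [DecidableEq I] {p : ℕ} [NeZero p] (X : PD I p 1)

theorem pi_bij (c : (ZMod (p ^ 1))ˣ) : Function.Bijective (X.pi c) := by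
  constructor
  · intro a b h
    have := congrArg (X.pi c⁻¹) h
    simpa [← X.pi_mul, X.pi_one] using this
  · intro b
    exact ⟨X.pi c⁻¹ b, by rw [← X.pi_mul, mul_inv_cancel, X.pi_one]⟩

theorem sum_pi {M : Type} [AddCommMonoid M] (c : (ZMod (p ^ 1))ˣ) (f : I → M) :
    ∑ k, f (X.pi c k) = ∑ k, f k :=
  (pi_bij X c).sum_comp f

theorem sum_mul_right' {M : Type} [AddCommMonoid M] (e : (ZMod (p ^ 1))ˣ)
    (f : (ZMod (p ^ 1))ˣ → M) : ∑ c, f (c * e) = ∑ c, f c :=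
  Fintype.sum_equiv (Equiv.mulRight e) _ _ (fun _ => rfl)

/-- the bilinear form vanishes on an invariant vector and a vector of orbit sums zero -/
theorem bil_zero (hp : (p : ℂ) - 1 ≠ 0) (hcard : ((Fintype.card (ZMod (p ^ 1))ˣ : ℕ) : ℂ) = (p : ℂ) - 1)
    (v y : I → ℂ) (hv : ∀ c k, v (X.pi c k) = v k) (hy : ∀ k, ∑ c, y (X.pi c k) = 0) :
    ∑ i, ∑ k, v i * (X.s i k * y k) = 0 := by
  have h1 : ∀ c : (ZMod (p ^ 1))ˣ,
      ∑ i, ∑ k, v i * (X.s i k * y k) = ∑ i, ∑ k, v i * (X.s i k * y (X.pi c k)) := by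
    intro c
    calc ∑ i, ∑ k, v i * (X.s i k * y k)
        = ∑ i, ∑ k, v i * (X.s i (X.pi c k) * y (X.pi c k)) := by
          refine Finset.sum_congr rfl fun i _ => ?_
          exact (sum_pi X c (fun k => v i * (X.s i k * y k))).symm
      _ = ∑ i, ∑ k, v (X.pi c i) * (X.s (X.pi c i) k * y (X.pi c k)) := by
          refine Finset.sum_congr rfl fun i _ => Finset.sum_congr rfl fun k _ => ?_
          rw [hv, X.pi_s]
      _ = ∑ i, ∑ k, v i * (X.s i k * y (X.pi c k)) :=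
          sum_pi X c (fun i => ∑ k, v i * (X.s i k * y (X.pi c k)))
  have h2 : ((Fintype.card (ZMod (p ^ 1))ˣ : ℕ) : ℂ) * ∑ i, ∑ k, v i * (X.s i k * y k) = 0 := by
    calc ((Fintype.card (ZMod (p ^ 1))ˣ : ℕ) : ℂ) * ∑ i, ∑ k, v i * (X.s i k * y k)
        = ∑ _c : (ZMod (p ^ 1))ˣ, ∑ i, ∑ k, v i * (X.s i k * y k) := by
          rw [Finset.sum_const, nsmul_eq_mul, Finset.card_univ]
      _ = ∑ c : (ZMod (p ^ 1))ˣ, ∑ i, ∑ k, v i * (X.s i k * y (X.pi c k)) :=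
          Finset.sum_congr rfl fun c _ => h1 c
      _ = ∑ i, ∑ k, v i * (X.s i k * ∑ c, y (X.pi c k)) := by
          rw [Finset.sum_comm]
          refine Finset.sum_congr rfl fun i _ => ?_
          rw [Finset.sum_comm]
          refine Finset.sum_congr rfl fun k _ => ?_
          rw [Finset.mul_sum, Finset.mul_sum]
      _ = 0 := by simp [hy]
  rw [hcard] at h2
  exact (mul_eq_zero.1 h2).resolve_left hp

/-- `|s v|^2 = p^2 |v|^2` -/
theorem norm_s (v : I → ℂ) :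
    ∑ i, ‖∑ k, X.s i k * v k‖ ^ 2 = (p : ℝ) ^ 2 * ∑ k, ‖v k‖ ^ 2 := by
  have h : ((∑ i, ‖∑ k, X.s i k * v k‖ ^ 2 : ℝ) : ℂ) =
      (((p : ℝ) ^ 2 * ∑ k, ‖v k‖ ^ 2 : ℝ) : ℂ) := by
    push_cast
    calc ∑ i, ((‖∑ k, X.s i k * v k‖ : ℝ) : ℂ) ^ 2
        = ∑ i, ∑ k, ∑ l, (v k * conj (v l)) * (X.s k i * conj (X.s l i)) := by
          refine Finset.sum_congr rfl fun i _ => ?_
          rw [← Complex.mul_conj', map_sum, Finset.sum_mul_sum]
          refine Finset.sum_congr rfl fun k _ => Finset.sum_congr rfl fun l _ => ?_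
          rw [map_mul, X.s_symm k i, X.s_symm l i]
          ring
      _ = ∑ k, ∑ l, (v k * conj (v l)) * ∑ i, (X.s k i * conj (X.s l i)) := by
          rw [Finset.sum_comm]
          refine Finset.sum_congr rfl fun k _ => ?_
          rw [Finset.sum_comm]
          refine Finset.sum_congr rfl fun l _ => ?_
          rw [Finset.mul_sum]
      _ = (p : ℂ) ^ 2 * ∑ k, ((‖v k‖ : ℝ) : ℂ) ^ 2 := by
          rw [Finset.mul_sum]
          refine Finset.sum_congr rfl fun k _ => ?_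
          simp only [X.s_uni]
          rw [Finset.sum_eq_single k]
          · rw [if_pos rfl, Complex.mul_conj']
            ring
          · intro l _ hl
            rw [if_neg (Ne.symm hl), mul_zero]
          · intro h
            exact absurd (Finset.mem_univ k) h
  exact_mod_cast h

end

/-- Cauchy-Schwarz -/
theorem cs {I : Type} [Fintype I] (P : I → Prop) [DecidablePred P] (x y : I → ℂ)
    (hx : ∀ i, x i ≠ 0 → P i) (K N : ℝ) (hK : 0 ≤ K) (hN : ∑ i, ‖x i‖ ^ 2 = N)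
    (hy : ∑ i, (if P i then ‖y i‖ ^ 2 else 0) ≤ K ^ 2 * N) :
    ‖∑ i, conj (x i) * y i‖ ≤ K * N := by
  have hN0 : 0 ≤ N := by rw [← hN]; positivity
  have h1 : ‖∑ i, conj (x i) * y i‖ ≤ ∑ i, ‖x i‖ * (if P i then ‖y i‖ else 0) := by
    refine (norm_sum_le _ _).trans (Finset.sum_le_sum fun i _ => ?_)
    rw [norm_mul, RCLike.norm_conj]
    split_ifs with h
    · exact le_rfl
    · have : x i = 0 := by
        by_contra h'
        exact h (hx i h')
      simp [this]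
  have h2 : (∑ i, ‖x i‖ * (if P i then ‖y i‖ else 0)) ^ 2 ≤ (K * N) ^ 2 := by
    refine (Finset.sum_mul_sq_le_sq_mul_sq _ _ _).trans ?_
    have h3 : ∑ i, (if P i then ‖y i‖ else 0) ^ 2 = ∑ i, (if P i then ‖y i‖ ^ 2 else 0) := by
      refine Finset.sum_congr rfl fun i _ => ?_
      split_ifs <;> simp
    rw [h3, hN]
    calc N * ∑ i, (if P i then ‖y i‖ ^ 2 else 0) ≤ N * (K ^ 2 * N) :=
          mul_le_mul_of_nonneg_left hy hN0
      _ = (K * N) ^ 2 := by ring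
  exact h1.trans (abs_le_of_sq_le_sq' h2 (by positivity)).2

/-- the sum over the units of the powers of a `p`-th root of unity -/
theorem sum_units {p : ℕ} [NeZero p] (hp : p.Prime) (θ : ℂ) (h : θ ^ p = 1) :
    ∑ e : (ZMod (p ^ 1))ˣ, θ ^ ((e : ZMod (p ^ 1))).val = (if θ = 1 then (p : ℂ) else 0) - 1 := by
  have h' : θ ^ (p ^ 1) = 1 := by rw [pow_one]; exact h
  have h1 := Pool.Agent.Helper82.OS.sum_residues hp (fun w => θ ^ w.val)
  rw [Pool.Agent.Helper82.OS.sum_pow_val hp θ h'] at h1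
  rw [h1]
  simp

theorem pow_val_mul {p : ℕ} [NeZero p] (ζ : ℂ) (h : ζ ^ p = 1) (x y : ZMod (p ^ 1)) :
    ζ ^ (x * y).val = (ζ ^ x.val) ^ y.val := by
  have h' : ζ ^ (p ^ 1) = 1 := by rw [pow_one]; exact h
  rw [ZMod.val_mul, ← pow_mul, pow_eq_pow_mod (x.val * y.val) h']

section
variable {I : Type} [Fintype I] [DecidableEq I] {p : ℕ} [NeZero p] (X : PD I p 1)

/-- `|Θ u|^2 = p |u|^2` -/
theorem norm_theta (u : I → ℂ) (h0 : ∀ k, ∑ c, u (X.pi c k) = 0) (ζ : ℂ) (hζ : ζ ^ p = 1)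
    (hζ1 : ζ ≠ 1) :
    ∑ k, ‖∑ c : (ZMod (p ^ 1))ˣ, ζ ^ ((c : ZMod (p ^ 1))).val * u (X.pi c k)‖ ^ 2 =
      (p : ℝ) * ∑ k, ‖u k‖ ^ 2 := by
  have hp := X.prime
  have hz0 : ζ ≠ 0 := by
    intro h
    rw [h, zero_pow hp.ne_zero] at hζ
    exact zero_ne_one hζ
  have hzn : ‖ζ‖ = 1 := Complex.norm_eq_one_of_pow_eq_one hζ hp.ne_zero
  have hconj : ∀ m : ℕ, conj (ζ ^ m) = (ζ⁻¹) ^ m := by
    intro m
    rw [map_pow, Complex.inv_def, Complex.normSq_eq_norm_sq, hzn]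
    simp
  set R : (ZMod (p ^ 1))ˣ → ℂ := fun f => ∑ k, u (X.pi f k) * conj (u k) with hR
  have hR1 : R 1 = ((∑ k, ‖u k‖ ^ 2 : ℝ) : ℂ) := by
    simp only [hR, X.pi_one]
    push_cast
    exact Finset.sum_congr rfl fun k _ => Complex.mul_conj' _
  have hRs : ∑ f, R f = 0 := by
    simp only [hR]
    rw [Finset.sum_comm]
    refine Finset.sum_eq_zero fun k _ => ?_
    rw [← Finset.sum_mul, h0, zero_mul]
  have hRr : ∀ c e : (ZMod (p ^ 1))ˣ,
      ∑ k, u (X.pi (c * e) k) * conj (u (X.pi e k)) = R c := by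
    intro c e
    simp only [hR, X.pi_mul]
    exact sum_pi X e (fun k => u (X.pi c k) * conj (u k))
  have key : ∀ f : (ZMod (p ^ 1))ˣ, ∑ e : (ZMod (p ^ 1))ˣ,
      ζ ^ (((f * e : (ZMod (p ^ 1))ˣ) : ZMod (p ^ 1))).val * (ζ⁻¹) ^ ((e : ZMod (p ^ 1))).val =
        (if f = 1 then (p : ℂ) else 0) - 1 := by
    intro f
    have h1 : ∀ e : (ZMod (p ^ 1))ˣ,
        ζ ^ (((f * e : (ZMod (p ^ 1))ˣ) : ZMod (p ^ 1))).val * (ζ⁻¹) ^ ((e : ZMod (p ^ 1))).val =
          (ζ ^ ((f : ZMod (p ^ 1))).val * ζ⁻¹) ^ ((e : ZMod (p ^ 1))).val := by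
      intro e
      rw [Units.val_mul, pow_val_mul ζ hζ, mul_pow]
    rw [Finset.sum_congr rfl fun e _ => h1 e]
    have h2 : (ζ ^ ((f : ZMod (p ^ 1))).val * ζ⁻¹) ^ p = 1 := by
      rw [mul_pow, ← pow_mul, mul_comm, inv_pow, hζ, mul_comm ((f : ZMod (p ^ 1))).val p, pow_mul,
        hζ]
      simp
    rw [sum_units hp _ h2]
    have h3 : (ζ ^ ((f : ZMod (p ^ 1))).val * ζ⁻¹ = 1) ↔ f = 1 := by
      constructor
      · intro h
        have h4 : ζ ^ ((f : ZMod (p ^ 1))).val = ζ ^ 1 := by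
          rw [pow_one ζ]
          have := congrArg (· * ζ) h
          simpa [mul_assoc, hz0] using this
        have hprim : IsPrimitiveRoot ζ p := by
          have hf : Fact p.Prime := ⟨hp⟩
          have ho : orderOf ζ = p := orderOf_eq_prime hζ hζ1
          rw [← ho]
          exact IsPrimitiveRoot.orderOf ζ
        have hlt : ((f : ZMod (p ^ 1))).val < p := by
          have := ZMod.val_lt (f : ZMod (p ^ 1))
          simpa using this
        have h5 : ((f : ZMod (p ^ 1))).val = 1 := hprim.pow_inj hlt hp.one_lt h4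
        apply Units.ext
        have h6 : (((f : ZMod (p ^ 1))).val : ZMod (p ^ 1)) = (f : ZMod (p ^ 1)) :=
          ZMod.natCast_zmod_val _
        rw [← h6, h5]
        simp
      · intro h
        subst h
        have h7 : ((1 : (ZMod (p ^ 1))ˣ) : ZMod (p ^ 1)).val = 1 := by
          have : Fact (1 < p ^ 1) := ⟨by simpa using hp.one_lt⟩
          rw [Units.val_one, ZMod.val_one]
        rw [h7, pow_one, mul_inv_cancel₀ hz0]
    by_cases hf : f = 1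
    · rw [if_pos (h3.2 hf), if_pos hf]
    · rw [if_neg (fun h => hf (h3.1 h)), if_neg hf]
  have h : ((∑ k, ‖∑ c : (ZMod (p ^ 1))ˣ, ζ ^ ((c : ZMod (p ^ 1))).val * u (X.pi c k)‖ ^ 2 : ℝ) : ℂ) =
      (((p : ℝ) * ∑ k, ‖u k‖ ^ 2 : ℝ) : ℂ) := by
    rw [Complex.ofReal_sum]
    calc ∑ k, ((‖∑ c : (ZMod (p ^ 1))ˣ, ζ ^ ((c : ZMod (p ^ 1))).val * u (X.pi c k)‖ ^ 2 : ℝ) : ℂ)
        = ∑ k, ∑ c : (ZMod (p ^ 1))ˣ, ∑ e : (ZMod (p ^ 1))ˣ,
            (ζ ^ ((c : ZMod (p ^ 1))).val * (ζ⁻¹) ^ ((e : ZMod (p ^ 1))).val) *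
              (u (X.pi c k) * conj (u (X.pi e k))) := by
          refine Finset.sum_congr rfl fun k _ => ?_
          rw [Complex.ofReal_pow, ← Complex.mul_conj', map_sum, Finset.sum_mul_sum]
          refine Finset.sum_congr rfl fun c _ => Finset.sum_congr rfl fun e _ => ?_
          rw [map_mul, hconj]
          ring
      _ = ∑ e : (ZMod (p ^ 1))ˣ, ∑ c : (ZMod (p ^ 1))ˣ,
            (ζ ^ ((c : ZMod (p ^ 1))).val * (ζ⁻¹) ^ ((e : ZMod (p ^ 1))).val) *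
              ∑ k, (u (X.pi c k) * conj (u (X.pi e k))) := by
          rw [Finset.sum_comm]
          have h9 : ∀ c : (ZMod (p ^ 1))ˣ, ∑ k, ∑ e : (ZMod (p ^ 1))ˣ,
              (ζ ^ ((c : ZMod (p ^ 1))).val * (ζ⁻¹) ^ ((e : ZMod (p ^ 1))).val) *
                (u (X.pi c k) * conj (u (X.pi e k))) =
              ∑ e : (ZMod (p ^ 1))ˣ,
              (ζ ^ ((c : ZMod (p ^ 1))).val * (ζ⁻¹) ^ ((e : ZMod (p ^ 1))).val) *
                ∑ k, (u (X.pi c k) * conj (u (X.pi e k))) := by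
            intro c
            rw [Finset.sum_comm]
            exact Finset.sum_congr rfl fun e _ => (Finset.mul_sum _ _ _).symm
          rw [Finset.sum_congr rfl fun c _ => h9 c, Finset.sum_comm]
      _ = ∑ e : (ZMod (p ^ 1))ˣ, ∑ f : (ZMod (p ^ 1))ˣ,
            (ζ ^ (((f * e : (ZMod (p ^ 1))ˣ) : ZMod (p ^ 1))).val *
              (ζ⁻¹) ^ ((e : ZMod (p ^ 1))).val) * R f := by
          refine Finset.sum_congr rfl fun e _ => ?_
          rw [← sum_mul_right' e]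
          exact Finset.sum_congr rfl fun f _ => by rw [hRr f e]
      _ = ∑ f : (ZMod (p ^ 1))ˣ, ((if f = 1 then (p : ℂ) else 0) - 1) * R f := by
          rw [Finset.sum_comm]
          refine Finset.sum_congr rfl fun f _ => ?_
          rw [← Finset.sum_mul, key f]
      _ = (p : ℂ) * R 1 - ∑ f, R f := by
          simp only [sub_mul, one_mul, Finset.sum_sub_distrib, ite_mul, zero_mul]
          simp
      _ = (((p : ℝ) * ∑ k, ‖u k‖ ^ 2 : ℝ) : ℂ) := by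
          rw [hRs, hR1, sub_zero, Complex.ofReal_mul, Complex.ofReal_natCast]
  exact_mod_cast h

theorem ip_zero (hp : (p : ℂ) - 1 ≠ 0)
    (hcard : ((Fintype.card (ZMod (p ^ 1))ˣ : ℕ) : ℂ) = (p : ℂ) - 1)
    (v y : I → ℂ) (hv : ∀ c k, v (X.pi c k) = v k) (hy : ∀ k, ∑ c, y (X.pi c k) = 0) :
    ∑ i, v i * y i = 0 := by
  have h2 : ((Fintype.card (ZMod (p ^ 1))ˣ : ℕ) : ℂ) * ∑ i, v i * y i = 0 := by
    calc ((Fintype.card (ZMod (p ^ 1))ˣ : ℕ) : ℂ) * ∑ i, v i * y i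
        = ∑ _c : (ZMod (p ^ 1))ˣ, ∑ i, v i * y i := by
          rw [Finset.sum_const, nsmul_eq_mul, Finset.card_univ]
      _ = ∑ c : (ZMod (p ^ 1))ˣ, ∑ i, v i * y (X.pi c i) := by
          refine Finset.sum_congr rfl fun c _ => ?_
          rw [← sum_pi X c (fun i => v i * y i)]
          exact Finset.sum_congr rfl fun i _ => by rw [hv]
      _ = ∑ i, v i * ∑ c, y (X.pi c i) := by
          rw [Finset.sum_comm]
          exact Finset.sum_congr rfl fun i _ => (Finset.mul_sum _ _ _).symm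
      _ = 0 := by simp [hy]
  rw [hcard] at h2
  exact (mul_eq_zero.1 h2).resolve_left hp

/-- the operator `Θ` -/
noncomputable def Th (ζ : ℂ) (x : I → ℂ) (k : I) : ℂ :=
  ∑ c : (ZMod (p ^ 1))ˣ, ζ ^ ((c : ZMod (p ^ 1))).val * x (X.pi c k)

theorem t_pi {c : (ZMod (p ^ 1))ˣ} {k : I} (h : X.t (X.pi c k) = 1) : X.t k = 1 := by
  have h1 : k = X.pi c⁻¹ (X.pi c k) := by
    rw [← X.pi_mul, inv_mul_cancel, X.pi_one]
  rw [h1, X.pi_t, h, one_pow]

end

open Classical in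
theorem hE3 : StE3 := by
  intro hE2 hE4 hORB I _ _ p _ X u hu ζ hζ hζ1
  have hp := X.prime
  have hcardN : Fintype.card (ZMod (p ^ 1))ˣ = p - 1 := by
    rw [ZMod.card_units_eq_totient, pow_one, Nat.totient_prime hp]
  have hcard : ((Fintype.card (ZMod (p ^ 1))ˣ : ℕ) : ℂ) = (p : ℂ) - 1 := by
    rw [hcardN, Nat.cast_sub hp.one_lt.le, Nat.cast_one]
  have hp1 : (p : ℂ) - 1 ≠ 0 := by
    rw [sub_ne_zero]
    exact_mod_cast hp.one_lt.ne'
  obtain ⟨u0, hu0⟩ : ∃ u0 : I → ℂ, u0 = fun k => ((p : ℂ) - 1)⁻¹ * ∑ c, u (X.pi c k) := ⟨_, rfl⟩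
  obtain ⟨u1, hu1⟩ : ∃ u1 : I → ℂ, u1 = fun k => u k - u0 k := ⟨_, rfl⟩
  have hsum : ∀ k, u k = u0 k + u1 k := by
    intro k
    rw [hu1]
    ring
  have inv0 : ∀ c k, u0 (X.pi c k) = u0 k := by
    intro c k
    rw [hu0]
    simp only
    congr 1
    have h1 : ∀ e, u (X.pi e (X.pi c k)) = u (X.pi (e * c) k) := fun e => by rw [X.pi_mul]
    rw [Finset.sum_congr rfl fun e _ => h1 e]
    exact sum_mul_right' c (fun e => u (X.pi e k))
  have orb1 : ∀ k, ∑ c, u1 (X.pi c k) = 0 := by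
    intro k
    have h1 : ∑ c, u1 (X.pi c k) = ∑ c, u (X.pi c k) - ∑ _c : (ZMod (p ^ 1))ˣ, u0 k := by
      rw [← Finset.sum_sub_distrib]
      refine Finset.sum_congr rfl fun c _ => ?_
      rw [hu1]
      simp only
      rw [inv0]
    rw [h1, Finset.sum_const, Finset.card_univ, nsmul_eq_mul, hcard, hu0]
    simp only
    rw [← mul_assoc, mul_inv_cancel₀ hp1, one_mul, sub_self]
  have supp0 : ∀ i, u0 i ≠ 0 → X.t i = 1 := by
    intro i hi
    rw [hu0] at hi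
    simp only at hi
    have h1 : ∑ c, u (X.pi c i) ≠ 0 := right_ne_zero_of_mul hi
    obtain ⟨c, _, hc⟩ := Finset.exists_ne_zero_of_sum_ne_zero h1
    exact t_pi X (hu _ hc)
  have supp1 : ∀ i, u1 i ≠ 0 → X.t i = 1 := by
    intro i hi
    by_cases h0 : u0 i = 0
    · refine hu i ?_
      rw [hsum i, h0, zero_add]
      exact hi
    · exact supp0 i h0
  have conj0 : ∀ c k, conj (u0 (X.pi c k)) = conj (u0 k) := fun c k => by rw [inv0]
  have conjorb : ∀ k, ∑ c, conj (u1 (X.pi c k)) = 0 := by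
    intro k
    rw [← map_sum, orb1, map_zero]
  -- norms
  have hnorm : (∑ k, ‖u k‖ ^ 2) = (∑ k, ‖u0 k‖ ^ 2) + ∑ k, ‖u1 k‖ ^ 2 := by
    have h1 : ((∑ k, ‖u k‖ ^ 2 : ℝ) : ℂ) =
        (((∑ k, ‖u0 k‖ ^ 2) + ∑ k, ‖u1 k‖ ^ 2 : ℝ) : ℂ) := by
      push_cast
      have h2 : ∀ k, ((‖u k‖ : ℝ) : ℂ) ^ 2 = ((‖u0 k‖ : ℝ) : ℂ) ^ 2 + ((‖u1 k‖ : ℝ) : ℂ) ^ 2 +
          conj (u0 k) * u1 k + u0 k * conj (u1 k) := by
        intro k
        rw [← Complex.mul_conj', ← Complex.mul_conj', ← Complex.mul_conj', hsum k, map_add]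
        ring
      rw [Finset.sum_congr rfl fun k _ => h2 k, Finset.sum_add_distrib, Finset.sum_add_distrib,
        Finset.sum_add_distrib,
        ip_zero X hp1 hcard (fun k => conj (u0 k)) u1 conj0 orb1,
        ip_zero X hp1 hcard u0 (fun k => conj (u1 k)) inv0 conjorb, add_zero, add_zero]
    exact_mod_cast h1
  -- theta
  have th0 : ∀ k, Th X ζ u0 k = -u0 k := by
    intro k
    unfold Th
    have h1 : ∑ c : (ZMod (p ^ 1))ˣ, ζ ^ ((c : ZMod (p ^ 1))).val * u0 (X.pi c k) =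
        (∑ c : (ZMod (p ^ 1))ˣ, ζ ^ ((c : ZMod (p ^ 1))).val) * u0 k := by
      rw [Finset.sum_mul]
      exact Finset.sum_congr rfl fun c _ => by rw [inv0]
    rw [h1, sum_units hp ζ hζ, if_neg hζ1]
    ring
  have thadd : ∀ k, Th X ζ u k = -u0 k + Th X ζ u1 k := by
    intro k
    rw [← th0 k]
    unfold Th
    rw [← Finset.sum_add_distrib]
    refine Finset.sum_congr rfl fun c _ => ?_
    rw [hsum (X.pi c k)]
    ring
  have thorb : ∀ k, ∑ e, Th X ζ u1 (X.pi e k) = 0 := by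
    intro k
    unfold Th
    rw [Finset.sum_comm]
    refine Finset.sum_eq_zero fun c _ => ?_
    rw [← Finset.mul_sum]
    have h1 : ∀ e, u1 (X.pi c (X.pi e k)) = u1 (X.pi e (X.pi c k)) := by
      intro e
      rw [← X.pi_mul, ← X.pi_mul, mul_comm]
    rw [Finset.sum_congr rfl fun e _ => h1 e, orb1, mul_zero]
  have thsupp : ∀ i, Th X ζ u1 i ≠ 0 → X.t i = 1 := by
    intro i hi
    unfold Th at hi
    obtain ⟨c, _, hc⟩ := Finset.exists_ne_zero_of_sum_ne_zero hi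
    exact t_pi X (supp1 _ (right_ne_zero_of_mul hc))
  -- the main identity
  have hmain := hE2 I p X u hu ζ hζ
  have hB : ∑ c : (ZMod (p ^ 1))ˣ,
      ζ ^ (((c⁻¹ : (ZMod (p ^ 1))ˣ) : ZMod (p ^ 1))).val *
        ∑ i, ∑ k, conj (u i) * (X.s i (X.pi c k) * u k) =
      ∑ i, conj (u i) * ∑ k, X.s i k * Th X ζ u k := by
    have h1 : ∀ c : (ZMod (p ^ 1))ˣ, ∑ i, ∑ k, conj (u i) * (X.s i (X.pi c k) * u k) =
        ∑ i, ∑ k, conj (u i) * (X.s i k * u (X.pi c⁻¹ k)) := by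
      intro c
      refine Finset.sum_congr rfl fun i _ => ?_
      rw [← sum_pi X c⁻¹ (fun k => conj (u i) * (X.s i (X.pi c k) * u k))]
      refine Finset.sum_congr rfl fun k _ => ?_
      rw [← X.pi_mul c, mul_inv_cancel, X.pi_one]
    calc ∑ c : (ZMod (p ^ 1))ˣ,
          ζ ^ (((c⁻¹ : (ZMod (p ^ 1))ˣ) : ZMod (p ^ 1))).val *
            ∑ i, ∑ k, conj (u i) * (X.s i (X.pi c k) * u k)
        = ∑ c : (ZMod (p ^ 1))ˣ,
          ζ ^ (((c⁻¹ : (ZMod (p ^ 1))ˣ) : ZMod (p ^ 1))).val *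
            ∑ i, ∑ k, conj (u i) * (X.s i k * u (X.pi c⁻¹ k)) :=
          Finset.sum_congr rfl fun c _ => by rw [h1]
      _ = ∑ c : (ZMod (p ^ 1))ˣ,
          ζ ^ ((c : ZMod (p ^ 1))).val *
            ∑ i, ∑ k, conj (u i) * (X.s i k * u (X.pi c k)) :=
          Fintype.sum_equiv (Equiv.inv _) _ _ (fun c => rfl)
      _ = ∑ i, conj (u i) * ∑ k, X.s i k * Th X ζ u k := by
          simp only [Finset.mul_sum]
          rw [Finset.sum_comm]
          refine Finset.sum_congr rfl fun i _ => ?_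
          rw [Finset.sum_comm]
          refine Finset.sum_congr rfl fun k _ => ?_
          unfold Th
          rw [Finset.mul_sum, Finset.mul_sum]
          refine Finset.sum_congr rfl fun c _ => ?_
          ring
  have hB2 : ∑ i, conj (u i) * ∑ k, X.s i k * Th X ζ u k =
      -(∑ i, conj (u0 i) * ∑ k, X.s i k * u0 k) +
        ∑ i, conj (u1 i) * ∑ k, X.s i k * Th X ζ u1 k := by
    have z1 := bil_zero X hp1 hcard (fun k => conj (u0 k)) (Th X ζ u1) conj0 thorb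
    have z2 := bil_zero X hp1 hcard u0 (fun k => conj (u1 k)) inv0 conjorb
    have z1' : ∑ i, conj (u0 i) * ∑ k, X.s i k * Th X ζ u1 k = 0 := by
      rw [← z1]
      exact Finset.sum_congr rfl fun i _ => Finset.mul_sum _ _ _
    have z2' : ∑ i, conj (u1 i) * ∑ k, X.s i k * u0 k = 0 := by
      rw [← z2]
      simp only [Finset.mul_sum]
      rw [Finset.sum_comm]
      refine Finset.sum_congr rfl fun i _ => Finset.sum_congr rfl fun k _ => ?_
      rw [X.s_symm k i]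
      ring
    have h1 : ∀ i, conj (u i) * ∑ k, X.s i k * Th X ζ u k =
        -(conj (u0 i) * ∑ k, X.s i k * u0 k) + conj (u0 i) * ∑ k, X.s i k * Th X ζ u1 k
          - conj (u1 i) * ∑ k, X.s i k * u0 k + conj (u1 i) * ∑ k, X.s i k * Th X ζ u1 k := by
      intro i
      have h2 : ∑ k, X.s i k * Th X ζ u k =
          -(∑ k, X.s i k * u0 k) + ∑ k, X.s i k * Th X ζ u1 k := by
        rw [← Finset.sum_neg_distrib, ← Finset.sum_add_distrib]
        refine Finset.sum_congr rfl fun k _ => ?_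
        rw [thadd]
        ring
      rw [h2, hsum i, map_add]
      ring
    rw [Finset.sum_congr rfl fun i _ => h1 i, Finset.sum_add_distrib, Finset.sum_sub_distrib,
      Finset.sum_add_distrib, z1', z2', Finset.sum_neg_distrib]
    ring
  have b0 : ‖∑ i, conj (u0 i) * ∑ k, X.s i k * u0 k‖ ≤ (p : ℝ) * ∑ k, ‖u0 k‖ ^ 2 := by
    refine cs (fun _ => True) u0 (fun i => ∑ k, X.s i k * u0 k) (fun _ _ => trivial) (p : ℝ) _
      (by positivity) rfl ?_
    simp only [if_true]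
    exact (norm_s X u0).le
  have b1 : ‖∑ i, conj (u1 i) * ∑ k, X.s i k * Th X ζ u1 k‖ ≤ (p : ℝ) * ∑ k, ‖u1 k‖ ^ 2 := by
    refine cs (fun i => X.t i = 1) u1 (fun i => ∑ k, X.s i k * Th X ζ u1 k) supp1 (p : ℝ) _
      (by positivity) rfl ?_
    have h4 := hE4 hE2 hORB I p X (Th X ζ u1) thsupp thorb
    have h5 : ∑ k, ‖Th X ζ u1 k‖ ^ 2 = (p : ℝ) * ∑ k, ‖u1 k‖ ^ 2 :=
      norm_theta X u1 orb1 ζ hζ hζ1
    rw [h5] at h4
    have h6 : (∑ i, if X.t i = 1 then ‖∑ k, X.s i k * Th X ζ u1 k‖ ^ 2 else 0) =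
        (p : ℝ) ^ 2 * ∑ k, ‖u1 k‖ ^ 2 := by
      rw [h4]
      ring
    exact h6.le
  set A : ℝ := ∑ j, if X.t j = ζ then ‖∑ k, X.s j k * u k‖ ^ 2 else 0 with hA
  have hA0 : 0 ≤ A := by
    rw [hA]
    refine Finset.sum_nonneg fun j _ => ?_
    split_ifs <;> positivity
  have hA1 : A = ‖((A : ℝ) : ℂ)‖ := by
    rw [Complex.norm_real, Real.norm_of_nonneg hA0]
  rw [hA1, hmain, hB, hB2]
  have hN : 0 ≤ ∑ k, ‖u k‖ ^ 2 := by positivity
  calc ‖(p : ℂ) * ((∑ k, ‖u k‖ ^ 2 : ℝ) : ℂ) +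
        (-(∑ i, conj (u0 i) * ∑ k, X.s i k * u0 k) +
          ∑ i, conj (u1 i) * ∑ k, X.s i k * Th X ζ u1 k)‖
      ≤ ‖(p : ℂ) * ((∑ k, ‖u k‖ ^ 2 : ℝ) : ℂ)‖ +
        (‖∑ i, conj (u0 i) * ∑ k, X.s i k * u0 k‖ +
          ‖∑ i, conj (u1 i) * ∑ k, X.s i k * Th X ζ u1 k‖) := by
        refine (norm_add_le _ _).trans (add_le_add le_rfl ((norm_add_le _ _).trans ?_))
        rw [norm_neg]
    _ ≤ (p : ℝ) * (∑ k, ‖u k‖ ^ 2) + ((p : ℝ) * (∑ k, ‖u0 k‖ ^ 2) + (p : ℝ) * ∑ k, ‖u1 k‖ ^ 2) := by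
        refine add_le_add ?_ (add_le_add b0 b1)
        rw [norm_mul, Complex.norm_natCast, Complex.norm_real, Real.norm_of_nonneg hN]
    _ = 2 * (p : ℝ) * ∑ k, ‖u k‖ ^ 2 := by
        rw [hnorm]
        ring

end Pool.Agent.Helper9.OC
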